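import Pool.Agent.H45.Lib.S8.H705R2.MLogA
import Pool.Agent.H45.Lib.S8.H307R2.LUB

/-!
Lower bounds for zeta to the right of the line `Re s = 1`.
-/

set_option autoImplicit false

open MeasureTheory Complex Filter Topology Set
open scoped Real

namespace Pool.Agent.H705R2.MSW

open Pool.Agent.H379R2.SW

/-- `(s-1) ζ(s)` -/
noncomputable def Z1 : ℂ → ℂ := DirichletCharacter.LFunctionTrivChar₁ 1

lemma Z1_diff : Differentiable ℂ Z1 := DirichletCharacter.differentiable_LFunctionTrivChar₁ 1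

lemma Z1_eq {s : ℂ} (hs : s ≠ 1) : Z1 s = (s - 1) * riemannZeta s := by
  unfold Z1
  simp only [DirichletCharacter.LFunctionTrivChar₁]
  rw [Function.update_of_ne hs]
  simp [DirichletCharacter.LFunctionTrivChar]

lemma Z1_one : Z1 1 = 1 := by
  unfold Z1
  simp [DirichletCharacter.LFunctionTrivChar₁]

lemma Z1_ne_zero {s : ℂ} (hs : 1 ≤ s.re) : Z1 s ≠ 0 := by
  by_cases h : s = 1
  · rw [h, Z1_one]; exact one_ne_zero
  · rw [Z1_eq h]
    exact mul_ne_zero (sub_ne_zero.mpr h) (riemannZeta_ne_zero_of_one_le_re hs)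

lemma norm_le_re_im (s : ℂ) : ‖s‖ ≤ |s.re| + |s.im| := Complex.norm_le_abs_re_add_abs_im s

lemma zeta_up {ε : ℝ} (hε : 0 < ε) (hε1 : ε ≤ 1) : ∃ C : ℝ, 1 ≤ C ∧ ∀ s : ℂ,
    1 - ε / 4 ≤ s.re → s.re ≤ 3 → s ≠ 1 →
      ‖riemannZeta s‖ ≤ C * (|s.im| + 2) ^ ε * (1 + 1 / ‖s - 1‖) := by
  obtain ⟨C₀, hC₀, h⟩ := Pool.Agent.H307R2.zetaUpper ε hε hε1
  refine ⟨C₀ + (2 + (9 + 1 / (ε / 2)) * 3), ?_, fun s hs1 hs3 hs => ?_⟩
  · have : 0 < 1 / (ε / 2) := by positivity
    linarith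
  have hT : (2 : ℝ) ≤ |s.im| + 2 := by linarith [abs_nonneg s.im]
  have hTε : 1 ≤ (|s.im| + 2) ^ ε := Real.one_le_rpow (by linarith) hε.le
  have hns : 0 < ‖s - 1‖ := norm_pos_iff.mpr (sub_ne_zero.mpr hs)
  have hinv : 0 < 1 / ‖s - 1‖ := by positivity
  have hc : 0 < 1 / (ε / 2) := by positivity
  rcases le_or_gt s.re 2 with h2 | h2
  · refine (h s hs1 h2 hs).trans ?_
    apply mul_le_mul_of_nonneg_right _ (by positivity)
    apply mul_le_mul_of_nonneg_right _ (by positivity)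
    linarith
  · have hN : ‖s‖ + 2 ≤ 3 * (|s.im| + 2) := by
      have h3 := norm_le_re_im s
      rw [abs_of_pos (by linarith : 0 < s.re)] at h3
      linarith [abs_nonneg s.im]
    have h1 := zeta_norm_le (s := s) (by linarith) hN (η := ε / 2) (by positivity)
    have h3 : (3 * (|s.im| + 2)) ^ (2 * (ε / 2)) ≤ 3 * (|s.im| + 2) ^ ε := by
      rw [show 2 * (ε / 2) = ε by ring, Real.mul_rpow (by norm_num) (by linarith)]
      apply mul_le_mul_of_nonneg_right _ (by positivity)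
      calc (3 : ℝ) ^ ε ≤ 3 ^ (1 : ℝ) := Real.rpow_le_rpow_of_exponent_le (by norm_num) hε1
        _ = 3 := by norm_num
    have h4 : (9 + 1 / (ε / 2)) * (3 * (|s.im| + 2)) ^ (2 * (ε / 2)) ≤
        (9 + 1 / (ε / 2)) * 3 * (|s.im| + 2) ^ ε := by
      calc _ ≤ (9 + 1 / (ε / 2)) * (3 * (|s.im| + 2) ^ ε) :=
            mul_le_mul_of_nonneg_left h3 (by positivity)
        _ = _ := by ring
    have h5 : 2 / ‖s - 1‖ = 2 * (1 / ‖s - 1‖) := by ring
    rw [h5] at h1
    set T := (|s.im| + 2) ^ ε with hTdef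
    set u := 1 / ‖s - 1‖ with hu
    set K := (9 + 1 / (ε / 2)) * 3 with hK
    have hK0 : 0 < K := by rw [hK]; positivity
    have h6 : 0 ≤ (C₀ * T) * (1 + u) := by positivity
    have h7 : 0 ≤ K * T * u := by positivity
    have h8 : 2 * u ≤ 2 * T * u := by nlinarith
    have h9 : (C₀ + (2 + K)) * T * (1 + u) =
      (C₀ * T) * (1 + u) + 2 * T + 2 * T * u + K * T + K * T * u := by ring
    rw [h9]
    nlinarith

lemma Z1_up {ε : ℝ} (hε : 0 < ε) (hε1 : ε ≤ 1) : ∃ C : ℝ, 1 ≤ C ∧ ∀ s : ℂ,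
    1 - ε / 4 ≤ s.re → s.re ≤ 3 →
      ‖Z1 s‖ ≤ C * (|s.im| + 2) ^ ε * (‖s - 1‖ + 1) := by
  obtain ⟨C, hC, h⟩ := zeta_up hε hε1
  refine ⟨C, hC, fun s h1 h3 => ?_⟩
  have hT : (2 : ℝ) ≤ |s.im| + 2 := by linarith [abs_nonneg s.im]
  have hTε : 1 ≤ (|s.im| + 2) ^ ε := Real.one_le_rpow (by linarith) hε.le
  by_cases hs : s = 1
  · rw [hs] at hTε ⊢
    rw [Z1_one, sub_self, norm_zero, norm_one]
    nlinarith
  · rw [Z1_eq hs, norm_mul]
    have hns : 0 < ‖s - 1‖ := norm_pos_iff.mpr (sub_ne_zero.mpr hs)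
    calc ‖s - 1‖ * ‖riemannZeta s‖ ≤ ‖s - 1‖ * (C * (|s.im| + 2) ^ ε * (1 + 1 / ‖s - 1‖)) :=
          mul_le_mul_of_nonneg_left (h s h1 h3 hs) hns.le
      _ = _ := by field_simp

/-- Lower bound away from the pole. -/
lemma zeta_low {ε : ℝ} (hε : 0 < ε) (hε1 : ε ≤ 1) : ∃ c : ℝ, 0 < c ∧ c ≤ 1 ∧ ∀ x t : ℝ, 0 < x →
    x ≤ 1 → 1 ≤ |t| → c * (|t| + 2) ^ (-(4 * ε)) ≤ ‖riemannZeta (1 + x + I * t)‖ := by
  obtain ⟨C, hC, hup⟩ := zeta_up hε hε1
  have hC0 : 0 < C := by linarith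
  set D₀ : ℝ := 256 * C ^ 4 with hD₀
  set V₀ : ℝ := 48 * C / ε with hV₀
  have hV₀1 : 1 ≤ V₀ := by
    rw [hV₀, le_div_iff₀ hε]; linarith
  have hC4 : 1 ≤ C ^ 4 := one_le_pow₀ hC
  have hD₀1 : 1 ≤ D₀ := by rw [hD₀]; linarith
  have hV₀3 : 1 ≤ V₀ ^ 3 := one_le_pow₀ hV₀1
  refine ⟨1 / (16 * D₀ * V₀ ^ 3), by positivity, ?_, ?_⟩
  · rw [div_le_one (by positivity)]
    nlinarith
  intro x t hx hx1 ht
  set T : ℝ := |t| + 2 with hT
  have hT2 : 3 ≤ T := by rw [hT]; linarith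
  have hT0 : 0 < T := by linarith
  have hTε : 1 ≤ T ^ ε := Real.one_le_rpow (by linarith) hε.le
  have hre : ∀ y u : ℝ, ((1 : ℂ) + y + I * u).re = 1 + y := by
    intro y u; simp
  have him : ∀ y u : ℝ, ((1 : ℂ) + y + I * u).im = u := by
    intro y u; simp
  have h2ε : (2 : ℝ) ^ ε ≤ 2 := by
    calc (2 : ℝ) ^ ε ≤ 2 ^ (1 : ℝ) := Real.rpow_le_rpow_of_exponent_le (by norm_num) hε1
      _ = 2 := by norm_num
  -- pointwise
  have hpt : ∀ y : ℝ, 0 < y → y ≤ 1 → y ^ 3 ≤ (D₀ * T ^ ε) * ‖riemannZeta (1 + y + I * t)‖ ^ 4 := by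
    intro y hy hy1
    have hA : ‖(1 : DirichletCharacter ℂ 1).LFunction (1 + y)‖ ≤ (4 * C) / y := by
      rw [DirichletCharacter.LFunction_modOne_eq]
      have h1 := hup (1 + y) (by simp; linarith) (by simp; linarith) (by
        intro h
        have h2 : ((1 : ℂ) + y).re = 1 := by rw [h]; simp
        simp at h2
        linarith)
      have h3 : ((1 : ℂ) + y).im = 0 := by simp
      rw [h3, abs_zero, zero_add, add_sub_cancel_left, Complex.norm_real,
        Real.norm_of_nonneg hy.le] at h1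
      refine h1.trans ?_
      have h4 : 1 + 1 / y ≤ 2 / y := by
        rw [le_div_iff₀ hy]
        have : (1 + 1 / y) * y = y + 1 := by field_simp
        rw [this]; linarith
      calc C * 2 ^ ε * (1 + 1 / y) ≤ C * 2 * (2 / y) := by
            apply mul_le_mul _ h4 (by positivity) (by positivity)
            exact mul_le_mul_of_nonneg_left h2ε hC0.le
        _ = 4 * C / y := by ring
    have hB : ‖((1 : DirichletCharacter ℂ 1) ^ 2).LFunction (1 + y + 2 * I * t)‖ ≤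
        4 * C * T ^ ε := by
      rw [DirichletCharacter.LFunction_modOne_eq]
      have e : (1 : ℂ) + y + 2 * I * t = 1 + y + I * ((2 * t : ℝ) : ℂ) := by push_cast; ring
      rw [e]
      have hne : (1 : ℂ) + y + I * ((2 * t : ℝ) : ℂ) ≠ 1 := by
        intro h
        have h2 := hre y (2 * t)
        rw [h] at h2
        simp at h2
        linarith
      have h1 := hup _ (by rw [hre]; linarith) (by rw [hre]; linarith) hne
      rw [him] at h1
      have h3 : 1 ≤ ‖(1 : ℂ) + y + I * ((2 * t : ℝ) : ℂ) - 1‖ := by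
        have h4 := abs_im_le_norm ((1 : ℂ) + y + I * ((2 * t : ℝ) : ℂ) - 1)
        have h5 : ((1 : ℂ) + y + I * ((2 * t : ℝ) : ℂ) - 1).im = 2 * t := by simp
        rw [h5, abs_mul, abs_two] at h4
        linarith
      have h6 : 1 + 1 / ‖(1 : ℂ) + y + I * ((2 * t : ℝ) : ℂ) - 1‖ ≤ 2 := by
        have : 1 / ‖(1 : ℂ) + y + I * ((2 * t : ℝ) : ℂ) - 1‖ ≤ 1 := by
          rw [div_le_one (by linarith)]; exact h3
        linarith
      have h7 : (|2 * t| + 2) ^ ε ≤ 2 * T ^ ε := by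
        calc (|2 * t| + 2) ^ ε ≤ (2 * T) ^ ε := by
              apply Real.rpow_le_rpow (by positivity) _ hε.le
              rw [abs_mul, abs_two, hT]; linarith
          _ = 2 ^ ε * T ^ ε := Real.mul_rpow (by norm_num) hT0.le
          _ ≤ 2 * T ^ ε := mul_le_mul_of_nonneg_right h2ε (by positivity)
      refine h1.trans ?_
      calc C * (|2 * t| + 2) ^ ε * (1 + 1 / ‖(1 : ℂ) + y + I * ((2 * t : ℝ) : ℂ) - 1‖)
          ≤ C * (2 * T ^ ε) * 2 := by
            apply mul_le_mul _ h6 (by positivity) (by positivity)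
            exact mul_le_mul_of_nonneg_left h7 hC0.le
        _ = _ := by ring
    have h := pointwise_lower hy hA hB
    rw [DirichletCharacter.LFunction_modOne_eq] at h
    refine h.trans (le_of_eq ?_)
    rw [hD₀]; ring
  -- derivative
  have hdiff : ∀ z : ℂ, z ≠ 1 → DifferentiableAt ℂ riemannZeta z := fun z hz =>
    differentiableAt_riemannZeta hz
  have hder : ∀ w : ℂ, 1 ≤ w.re → w.re ≤ 2 → w.im = t → ‖deriv riemannZeta w‖ ≤ V₀ * T ^ ε := by
    intro w hw1 hw2 hwt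
    have hu : ∀ u ∈ Metric.closedBall w (ε / 8), 7 / 8 ≤ ‖u - 1‖ ∧ u.re ≤ 3 ∧ 1 - ε / 4 ≤ u.re ∧
        |u.im| + 2 ≤ 2 * T := by
      intro u hu
      rw [mem_closedBall_iff_norm] at hu
      have h1 : |(u - w).im| ≤ ε / 8 := (abs_im_le_norm _).trans hu
      have h2 : |(u - w).re| ≤ ε / 8 := (abs_re_le_norm _).trans hu
      rw [sub_im, hwt] at h1
      rw [sub_re] at h2
      have h3 := abs_le.mp h2
      have h4 : |t| ≤ |u.im| + |u.im - t| := by
        have := abs_sub_abs_le_abs_sub t u.im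
        rw [abs_sub_comm] at this
        linarith
      have h5 : |u.im| ≤ |t| + |u.im - t| := by
        have := abs_sub_abs_le_abs_sub u.im t
        linarith
      refine ⟨?_, by linarith, by linarith, by rw [hT]; linarith⟩
      have h6 := abs_im_le_norm (u - 1)
      rw [sub_im, one_im, sub_zero] at h6
      linarith
    have h := norm_deriv_le_of_forall_mem_sphere_norm_le (c := w) (R := ε / 8)
      (C := 6 * C * T ^ ε) (by positivity) (f := riemannZeta) ?_ ?_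
    · refine h.trans (le_of_eq ?_)
      rw [hV₀]; field_simp; norm_num
    · apply DifferentiableOn.diffContOnCl
      rw [closure_ball w (by positivity)]
      intro z hz
      apply (hdiff z _).differentiableWithinAt
      intro h0
      have := (hu z hz).1
      rw [h0] at this
      norm_num at this
    · intro u hu'
      have hu'' := Metric.sphere_subset_closedBall hu'
      obtain ⟨h1, h2, h3, h4⟩ := hu u hu''
      have hne : u ≠ 1 := by
        intro h0
        rw [h0] at h1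
        norm_num at h1
      have h5 := hup u h3 h2 hne
      have h6 : 1 + 1 / ‖u - 1‖ ≤ 3 := by
        have : 1 / ‖u - 1‖ ≤ 2 := by
          rw [div_le_iff₀ (by linarith)]; linarith
        linarith
      have h7 : (|u.im| + 2) ^ ε ≤ 2 * T ^ ε := by
        calc (|u.im| + 2) ^ ε ≤ (2 * T) ^ ε :=
              Real.rpow_le_rpow (by positivity) h4 hε.le
          _ = 2 ^ ε * T ^ ε := Real.mul_rpow (by norm_num) hT0.le
          _ ≤ 2 * T ^ ε := mul_le_mul_of_nonneg_right h2ε (by positivity)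
      refine h5.trans ?_
      calc C * (|u.im| + 2) ^ ε * (1 + 1 / ‖u - 1‖) ≤ C * (2 * T ^ ε) * 3 := by
            apply mul_le_mul _ h6 (by positivity) (by positivity)
            exact mul_le_mul_of_nonneg_left h7 hC0.le
        _ = _ := by ring
  have hlip : ∀ y z : ℝ, 0 < y → y ≤ z → z ≤ 1 → ‖riemannZeta (1 + z + I * t)‖ ≤
      ‖riemannZeta (1 + y + I * t)‖ + (V₀ * T ^ ε) * (z - y) := by
    intro y z hy hyz hz
    have hconv : Convex ℝ (segment ℝ ((1 : ℂ) + y + I * t) (1 + z + I * t)) := convex_segment _ _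
    have hseg : ∀ w ∈ segment ℝ ((1 : ℂ) + y + I * t) (1 + z + I * t),
        1 ≤ w.re ∧ w.re ≤ 2 ∧ w.im = t := by
      intro w hw
      obtain ⟨a, b, ha, hb, hab, rfl⟩ := hw
      have h1 : (a • ((1 : ℂ) + y + I * t) + b • (1 + z + I * t)).re = a * (1 + y) + b * (1 + z) := by
        simp
        ring
      have h2 : (a • ((1 : ℂ) + y + I * t) + b • (1 + z + I * t)).im = a * t + b * t := by
        simp
      rw [h1, h2]
      have h3 : a = 1 - b := by linarith
      refine ⟨?_, ?_, ?_⟩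
      · rw [h3]; nlinarith
      · rw [h3]; nlinarith
      · rw [← add_mul, hab, one_mul]
    have h := hconv.norm_image_sub_le_of_norm_deriv_le (f := riemannZeta) (C := V₀ * T ^ ε)
      (fun w hw => hdiff w (fun h0 => by
        have := (hseg w hw).2.2
        rw [h0, one_im] at this
        rw [← this] at ht
        norm_num at ht)) (fun w hw => hder w (hseg w hw).1 (hseg w hw).2.1 (hseg w hw).2.2)
      (left_mem_segment ℝ _ _) (right_mem_segment ℝ _ _)
    have e : (1 : ℂ) + z + I * t - (1 + y + I * t) = ((z - y : ℝ) : ℂ) := by push_cast; ring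
    rw [e, Complex.norm_real, Real.norm_of_nonneg (by linarith)] at h
    have h4 : ‖riemannZeta (1 + z + I * t)‖ ≤
        ‖riemannZeta (1 + z + I * t) - riemannZeta (1 + y + I * t)‖ +
        ‖riemannZeta (1 + y + I * t)‖ := by
      simpa using norm_add_le (riemannZeta (1 + z + I * t) - riemannZeta (1 + y + I * t))
        (riemannZeta (1 + y + I * t))
    linarith
  have hfin := lower_of_pointwise (f := fun y => ‖riemannZeta (1 + y + I * t)‖)
    (D := D₀ * T ^ ε) (V := V₀ * T ^ ε) (by nlinarith) (by nlinarith) (fun y => norm_nonneg _)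
    hpt hlip hx hx1
  refine le_trans (le_of_eq ?_) hfin
  have e1 : T ^ (-(4 * ε)) = 1 / (T ^ ε) ^ 4 := by
    rw [← Real.rpow_natCast (T ^ ε) 4, ← Real.rpow_mul hT0.le, Real.rpow_neg hT0.le, one_div]
    congr 2
    push_cast; ring
  rw [e1]
  field_simp

/-- Lower bound for `(s-1) ζ(s)`. -/
lemma Z1_low {ε : ℝ} (hε : 0 < ε) (hε1 : ε ≤ 1) : ∃ c : ℝ, 0 < c ∧ c ≤ 1 ∧ ∀ x t : ℝ, 0 < x →
    x ≤ 1 → c * (|t| + 2) ^ (-(4 * ε)) * (‖(1 : ℂ) + x + I * t‖ + 1) ≤ ‖Z1 (1 + x + I * t)‖ := by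
  obtain ⟨c, hc, hc1, hlow⟩ := zeta_low hε hε1
  have hcomp : IsCompact (Icc (0 : ℝ) 1 ×ˢ Icc (-1 : ℝ) 1) := isCompact_Icc.prod isCompact_Icc
  have hcont : Continuous (fun p : ℝ × ℝ => ‖Z1 (1 + p.1 + I * p.2)‖) := by
    have := Z1_diff.continuous
    fun_prop
  obtain ⟨p₀, hp₀, hmin⟩ := hcomp.exists_isMinOn ⟨(0, 0), by simp⟩ hcont.continuousOn
  have hm0 : 0 < ‖Z1 (1 + p₀.1 + I * p₀.2)‖ := by
    apply norm_pos_iff.mpr
    apply Z1_ne_zero
    have := hp₀.1.1
    simp; linarith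
  set m := ‖Z1 (1 + p₀.1 + I * p₀.2)‖ with hm
  refine ⟨min (c / 4) (m / 4), by positivity, (min_le_left _ _).trans (by linarith), ?_⟩
  intro x t hx hx1
  have hnorm : ‖(1 : ℂ) + x + I * t‖ ≤ 2 + |t| := by
    have h1 := norm_le_re_im ((1 : ℂ) + x + I * t)
    have h2 : ((1 : ℂ) + x + I * t).re = 1 + x := by simp
    have h3 : ((1 : ℂ) + x + I * t).im = t := by simp
    rw [h2, h3, abs_of_pos (by linarith)] at h1
    linarith
  have hT0 : 0 < |t| + 2 := by positivity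
  have hTn : 0 < (|t| + 2) ^ (-(4 * ε)) := Real.rpow_pos_of_pos hT0 _
  rcases le_or_gt 1 |t| with ht | ht
  · have h1 := hlow x t hx hx1 ht
    have hne : (1 : ℂ) + x + I * t ≠ 1 := by
      intro h
      have h2 : ((1 : ℂ) + x + I * t).re = 1 := by rw [h]; simp
      simp at h2
      linarith
    rw [Z1_eq hne, norm_mul]
    have h3 : |t| ≤ ‖(1 : ℂ) + x + I * t - 1‖ := by
      have h4 := abs_im_le_norm ((1 : ℂ) + x + I * t - 1)
      have h5 : ((1 : ℂ) + x + I * t - 1).im = t := by simp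
      rwa [h5] at h4
    have h6 : ‖(1 : ℂ) + x + I * t‖ + 1 ≤ 4 * |t| := by linarith
    calc min (c / 4) (m / 4) * (|t| + 2) ^ (-(4 * ε)) * (‖(1 : ℂ) + x + I * t‖ + 1)
        ≤ (c / 4) * (|t| + 2) ^ (-(4 * ε)) * (4 * |t|) := by
          apply mul_le_mul _ h6 (by positivity) (by positivity)
          exact mul_le_mul_of_nonneg_right (min_le_left _ _) hTn.le
      _ = |t| * (c * (|t| + 2) ^ (-(4 * ε))) := by ring
      _ ≤ _ := mul_le_mul h3 h1 (by positivity) (norm_nonneg _)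
  · have h1 : m ≤ ‖Z1 (1 + x + I * t)‖ :=
      hmin (show ((x, t) : ℝ × ℝ) ∈ Icc (0 : ℝ) 1 ×ˢ Icc (-1 : ℝ) 1 from
        ⟨⟨hx.le, hx1⟩, abs_le.mp ht.le⟩)
    have h2 : (|t| + 2) ^ (-(4 * ε)) ≤ 1 :=
      Real.rpow_le_one_of_one_le_of_nonpos (by linarith [abs_nonneg t]) (by linarith)
    refine le_trans ?_ h1
    calc min (c / 4) (m / 4) * (|t| + 2) ^ (-(4 * ε)) * (‖(1 : ℂ) + x + I * t‖ + 1)
        ≤ (m / 4) * 1 * 4 := by
          apply mul_le_mul _ (by linarith) (by positivity) (by positivity)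
          apply mul_le_mul (min_le_right _ _) h2 hTn.le (by positivity)
      _ = m := by ring

end Pool.Agent.H705R2.MSW
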